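import Pool.Agent.H685R2.DIM.Chain

/-!
# Dominating induced matchings: a recursive algorithm
-/

namespace Pool.Agent.H685R2.DIM

open Relation Pool.Agent.H685R2.VST

/-- The vertices not adjacent to the guessed edge `w p`. -/
def nx1 (A : ℕ → ℕ → Bool) (C : List ℕ) (w p : ℕ) : List ℕ :=
  C.filter (fun x => !(A w x) && !(A p x))

/-- The vertices adjacent to the guessed edge `w p`. -/
def wt (A : ℕ → ℕ → Bool) (C : List ℕ) (w p : ℕ) : List ℕ :=
  C.filter (fun x => (A w x || A p x) && (!(decide (x = w)) && !(decide (x = p))))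

/-- The vertices which are forced to be matched. -/
def b1 (A : ℕ → ℕ → Bool) (C B : List ℕ) (w p : ℕ) : List ℕ :=
  (nx1 A C w p).filter (fun x => decide (x ∈ B) || (wt A C w p).any (fun y => A y x))

/-- The vertices with two forced neighbours. -/
def zz (A : ℕ → ℕ → Bool) (C B : List ℕ) (w p : ℕ) : List ℕ :=
  (nx1 A C w p).filter (fun x => !(decide (x ∈ b1 A C B w p)) &&
    (b1 A C B w p).any (fun y => A x y && (b1 A C B w p).any (fun y' => A x y' &&
      !(decide (y = y')))))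

/-- The remaining vertices. -/
def nx (A : ℕ → ℕ → Bool) (C B : List ℕ) (w p : ℕ) : List ℕ :=
  (nx1 A C w p).filter (fun x => !(decide (x ∈ zz A C B w p)))

/-- The vertices which are forced to be matched after the second step. -/
def nb (A : ℕ → ℕ → Bool) (C B : List ℕ) (w p : ℕ) : List ℕ :=
  (nx A C B w p).filter (fun x => decide (x ∈ b1 A C B w p) || (zz A C B w p).any (fun y => A y x))

/-- Independent lists. -/
def indepL (A : ℕ → ℕ → Bool) (L : List ℕ) : Bool := L.all (fun x => L.all (fun y => !(A x y)))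

/-- The test for a guess. -/
def test (A : ℕ → ℕ → Bool) (C B : List ℕ) (w p : ℕ) : Bool :=
  A w p && (indepL A (wt A C w p) && ((wt A C w p).all (fun x => !(decide (x ∈ B))) &&
    indepL A (zz A C B w p)))

/-- The recursive algorithm. -/
def solve (A : ℕ → ℕ → Bool) : ℕ → List ℕ × List ℕ → Bool
  | 0, s => s.1.isEmpty
  | d + 1, s => (headsL A s.1).all (fun h => (compL A s.1 h).any (fun w => (compL A s.1 h).any
      (fun p => test A (compL A s.1 h) s.2 w p &&
        solve A d (nx A (compL A s.1 h) s.2 w p, nb A (compL A s.1 h) s.2 w p))))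

/-- `K` is the set of the matched vertices of a dominating induced matching of the subgraph
induced by `X`, containing the forced vertices `B`. -/
structure Sol (A : ℕ → ℕ → Bool) (X B K : ℕ → Prop) : Prop where
  sub : ∀ x, K x → X x
  frc : ∀ x, B x → X x → K x
  mat : ∀ x, K x → ∃ y, K y ∧ A x y = true ∧ ∀ z, K z → A x z = true → z = y
  cov : ∀ x y, X x → X y → A x y = true → K x ∨ K y

section

variable {A : ℕ → ℕ → Bool} {C B : List ℕ} {w p x : ℕ}

theorem mem_nx1 : x ∈ nx1 A C w p ↔ x ∈ C ∧ A w x = false ∧ A p x = false := by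
  unfold nx1
  rw [List.mem_filter, Bool.and_eq_true, Bool.not_eq_true', Bool.not_eq_true']

theorem mem_wt : x ∈ wt A C w p ↔ x ∈ C ∧ (A w x = true ∨ A p x = true) ∧ x ≠ w ∧ x ≠ p := by
  unfold wt
  rw [List.mem_filter, Bool.and_eq_true, Bool.and_eq_true, Bool.or_eq_true, Bool.not_eq_true',
    Bool.not_eq_true', decide_eq_false_iff_not, decide_eq_false_iff_not]

theorem mem_b1 : x ∈ b1 A C B w p ↔ x ∈ nx1 A C w p ∧
    (x ∈ B ∨ ∃ y ∈ wt A C w p, A y x = true) := by
  unfold b1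
  rw [List.mem_filter, Bool.or_eq_true, decide_eq_true_eq, List.any_eq_true]

theorem mem_zz : x ∈ zz A C B w p ↔ x ∈ nx1 A C w p ∧ x ∉ b1 A C B w p ∧
    ∃ y ∈ b1 A C B w p, ∃ y' ∈ b1 A C B w p, A x y = true ∧ A x y' = true ∧ y ≠ y' := by
  unfold zz
  rw [List.mem_filter, Bool.and_eq_true, Bool.not_eq_true', decide_eq_false_iff_not,
    List.any_eq_true]
  simp only [Bool.and_eq_true, List.any_eq_true, Bool.not_eq_true', decide_eq_false_iff_not]
  constructor
  · rintro ⟨h1, h2, y, hy, h3, y', hy', h4, h5⟩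
    exact ⟨h1, h2, y, hy, y', hy', h3, h4, h5⟩
  · rintro ⟨h1, h2, y, hy, y', hy', h3, h4, h5⟩
    exact ⟨h1, h2, y, hy, h3, y', hy', h4, h5⟩

theorem mem_nx : x ∈ nx A C B w p ↔ x ∈ nx1 A C w p ∧ x ∉ zz A C B w p := by
  unfold nx
  rw [List.mem_filter, Bool.not_eq_true', decide_eq_false_iff_not]

theorem mem_nb : x ∈ nb A C B w p ↔ x ∈ nx A C B w p ∧
    (x ∈ b1 A C B w p ∨ ∃ y ∈ zz A C B w p, A y x = true) := by
  unfold nb
  rw [List.mem_filter, Bool.or_eq_true, decide_eq_true_eq, List.any_eq_true]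

theorem indepL_iff {L : List ℕ} : indepL A L = true ↔ ∀ x ∈ L, ∀ y ∈ L, A x y = false := by
  unfold indepL
  simp only [List.all_eq_true, Bool.not_eq_true']

theorem test_iff : test A C B w p = true ↔ A w p = true ∧
    (∀ x ∈ wt A C w p, ∀ y ∈ wt A C w p, A x y = false) ∧ (∀ x ∈ wt A C w p, x ∉ B) ∧
    (∀ x ∈ zz A C B w p, ∀ y ∈ zz A C B w p, A x y = false) := by
  unfold test
  simp only [Bool.and_eq_true, indepL_iff, List.all_eq_true, Bool.not_eq_true',
    decide_eq_false_iff_not]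

/-! ### Soundness -/

theorem step_sound (hA : ∀ a b, A a b = true → A b a = true) (hirr : ∀ a, A a a = false)
    (hw : w ∈ C) (hp : p ∈ C)
    (ht : test A C B w p = true) {K : ℕ → Prop}
    (hK : Sol A (· ∈ nx A C B w p) (· ∈ nb A C B w p) K) :
    Sol A (· ∈ C) (· ∈ B) (fun x => x = w ∨ x = p ∨ K x) := by
  obtain ⟨h1, h2, h3, h4⟩ := test_iff.1 ht
  have hKC : ∀ x, K x → x ∈ C ∧ A w x = false ∧ A p x = false := fun x hx =>
    mem_nx1.1 (mem_nx.1 (hK.sub x hx)).1
  have hcase : ∀ x ∈ C, x = w ∨ x = p ∨ x ∈ wt A C w p ∨ x ∈ zz A C B w p ∨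
      x ∈ nx A C B w p := by
    intro x hx
    by_cases h5 : x = w
    · exact Or.inl h5
    by_cases h6 : x = p
    · exact Or.inr (Or.inl h6)
    by_cases h7 : A w x = true ∨ A p x = true
    · exact Or.inr (Or.inr (Or.inl (mem_wt.2 ⟨hx, h7, h5, h6⟩)))
    · push Not at h7
      have h8 : x ∈ nx1 A C w p := mem_nx1.2 ⟨hx, by simpa using h7.1, by simpa using h7.2⟩
      by_cases h9 : x ∈ zz A C B w p
      · exact Or.inr (Or.inr (Or.inr (Or.inl h9)))
      · exact Or.inr (Or.inr (Or.inr (Or.inr (mem_nx.2 ⟨h8, h9⟩))))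
  have hnwt : ∀ x ∈ wt A C w p, ∀ y ∈ C, A x y = true → y = w ∨ y = p ∨ K y := by
    intro x hx y hy hxy
    rcases hcase y hy with h | h | h | h | h
    · exact Or.inl h
    · exact Or.inr (Or.inl h)
    · rw [h2 x hx y h] at hxy; simp at hxy
    · obtain ⟨h5, h6, _⟩ := mem_zz.1 h
      exact absurd (mem_b1.2 ⟨h5, Or.inr ⟨x, hx, hxy⟩⟩) h6
    · right; right
      refine hK.frc y (mem_nb.2 ⟨h, Or.inl (mem_b1.2 ⟨(mem_nx.1 h).1, Or.inr ⟨x, hx, hxy⟩⟩)⟩) h
  have hnzz : ∀ x ∈ zz A C B w p, ∀ y ∈ nx A C B w p, A x y = true → K y := by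
    intro x hx y hy hxy
    exact hK.frc y (mem_nb.2 ⟨hy, Or.inr ⟨x, hx, hxy⟩⟩) hy
  refine ⟨?_, ?_, ?_, ?_⟩
  · rintro x (rfl | rfl | hx)
    · exact hw
    · exact hp
    · exact (hKC x hx).1
  · intro x hxB hxC
    rcases hcase x hxC with h | h | h | h | h
    · exact Or.inl h
    · exact Or.inr (Or.inl h)
    · exact absurd hxB (h3 x h)
    · obtain ⟨h5, h6, _⟩ := mem_zz.1 h
      exact absurd (mem_b1.2 ⟨h5, Or.inl hxB⟩) h6
    · right; right
      exact hK.frc x (mem_nb.2 ⟨h, Or.inl (mem_b1.2 ⟨(mem_nx.1 h).1, Or.inl hxB⟩)⟩) h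
  · rintro x (rfl | rfl | hx)
    · refine ⟨p, Or.inr (Or.inl rfl), h1, ?_⟩
      rintro z (rfl | rfl | hz) hxz
      · rw [hirr] at hxz; simp at hxz
      · rfl
      · rw [(hKC z hz).2.1] at hxz; simp at hxz
    · refine ⟨w, Or.inl rfl, hA _ _ h1, ?_⟩
      rintro z (rfl | rfl | hz) hxz
      · rfl
      · rw [hirr] at hxz; simp at hxz
      · rw [(hKC z hz).2.2] at hxz; simp at hxz
    · obtain ⟨y, hy, hxy, hun⟩ := hK.mat x hx
      refine ⟨y, Or.inr (Or.inr hy), hxy, ?_⟩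
      rintro z (rfl | rfl | hz) hxz
      · have := hA _ _ hxz
        rw [(hKC x hx).2.1] at this; simp at this
      · have := hA _ _ hxz
        rw [(hKC x hx).2.2] at this; simp at this
      · exact hun z hz hxz
  · intro x y hx hy hxy
    rcases hcase x hx with h | h | h | h | h
    · exact Or.inl (Or.inl h)
    · exact Or.inl (Or.inr (Or.inl h))
    · exact Or.inr (hnwt x h y hy hxy)
    · rcases hcase y hy with h' | h' | h' | h' | h'
      · exact Or.inr (Or.inl h')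
      · exact Or.inr (Or.inr (Or.inl h'))
      · exact Or.inl (hnwt y h' x hx (hA _ _ hxy))
      · rw [h4 x h y h'] at hxy; simp at hxy
      · exact Or.inr (Or.inr (Or.inr (hnzz x h y h' hxy)))
    · rcases hcase y hy with h' | h' | h' | h' | h'
      · exact Or.inr (Or.inl h')
      · exact Or.inr (Or.inr (Or.inl h'))
      · exact Or.inl (hnwt y h' x hx (hA _ _ hxy))
      · exact Or.inl (Or.inr (Or.inr (hnzz y h' x h (hA _ _ hxy))))
      · rcases hK.cov x y h h' hxy with h5 | h5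
        · exact Or.inl (Or.inr (Or.inr h5))
        · exact Or.inr (Or.inr (Or.inr h5))

theorem solve_sound (hA : ∀ a b, A a b = true → A b a = true) (hirr : ∀ a, A a a = false) :
    ∀ (d : ℕ) (X B : List ℕ), solve A d (X, B) = true → ∃ K, Sol A (· ∈ X) (· ∈ B) K
  | 0, X, B, h => by
    unfold solve at h
    have hX : X = [] := by simpa using h
    subst hX
    exact ⟨fun _ => False, fun _ h => h.elim, fun _ _ h => absurd h List.not_mem_nil,
      fun _ h => h.elim, fun _ _ h => absurd h List.not_mem_nil⟩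
  | d + 1, X, B, h => by
    unfold solve at h
    simp only [List.all_eq_true, List.any_eq_true, Bool.and_eq_true] at h
    have hex : ∀ h, ∃ K : ℕ → Prop, h ∈ headsL A X → Sol A (· ∈ compL A X h) (· ∈ B) K := by
      intro c
      by_cases hc : c ∈ headsL A X
      · obtain ⟨w, hw, p, hp, ht, hs⟩ := h c hc
        obtain ⟨K, hK⟩ := solve_sound hA hirr d _ _ hs
        exact ⟨_, fun _ => step_sound hA hirr hw hp ht hK⟩
      · exact ⟨fun _ => False, fun h' => absurd h' hc⟩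
    choose K hK using hex
    have hadj : ∀ c ∈ headsL A X, ∀ x ∈ compL A X c, ∀ y ∈ X, A x y = true → y ∈ compL A X c := by
      intro c _ x hx y hy hxy
      rw [mem_compL hA] at hx ⊢
      exact ⟨hx.1, hy, hx.2.2.trans (Rs.single hxy hx.2.1 hy)⟩
    refine ⟨fun x => ∃ c ∈ headsL A X, K c x, ?_, ?_, ?_, ?_⟩
    · rintro x ⟨c, hc, hx⟩
      have := (hK c hc).sub x hx
      rw [mem_compL hA] at this
      exact this.2.1
    · intro x hxB hx
      obtain ⟨c, hc, hxc⟩ := exists_head hA hx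
      exact ⟨c, hc, (hK c hc).frc x hxB hxc⟩
    · rintro x ⟨c, hc, hx⟩
      obtain ⟨y, hy, hxy, hun⟩ := (hK c hc).mat x hx
      refine ⟨y, ⟨c, hc, hy⟩, hxy, ?_⟩
      rintro z ⟨c', hc', hz⟩ hxz
      have h1 := (hK c hc).sub x hx
      have h2 := (hK c' hc').sub z hz
      have h3 : z ∈ X := ((mem_compL hA).1 h2).2.1
      have h4 := hadj c hc x h1 z h3 hxz
      have h5 := heads_inj hA hc hc' h4 h2
      subst h5
      exact hun z hz hxz
    · intro x y hx hy hxy
      obtain ⟨c, hc, hxc⟩ := exists_head hA hx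
      have hyc := hadj c hc x hxc y hy hxy
      rcases (hK c hc).cov x y hxc hyc hxy with h1 | h1
      · exact Or.inl ⟨c, hc, h1⟩
      · exact Or.inr ⟨c, hc, h1⟩

/-! ### Completeness -/

/-- The first vertex of `T` on a path. -/
theorem first_vertex {S T : ℕ → Prop} {a b : ℕ} (h : Rb A S a b) (ha : ¬ T a)
    (hb : T b) : ∃ c, T c ∧ Rb A (fun x => (S x ∧ ¬ T x) ∨ x = c) a c ∧
      ∃ u, S u ∧ ¬ T u ∧ A u c = true := by
  induction h using ReflTransGen.head_induction_on with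
  | refl => exact absurd hb ha
  | @head a c hac _ ih =>
    by_cases hc : T c
    · exact ⟨c, hc, Rs.single hac.1 (Or.inl ⟨hac.2.1, ha⟩) (Or.inr rfl), a, hac.2.1, ha, hac.1⟩
    · obtain ⟨e, he, h1, h2⟩ := ih hc
      exact ⟨e, he, (Rs.single hac.1 (Or.inl ⟨hac.2.1, ha⟩) (Or.inl ⟨hac.2.2, hc⟩)).trans h1, h2⟩

theorem rb_comp (hA : ∀ a b, A a b = true → A b a = true) {X : List ℕ} {h a b : ℕ}
    (ha : a ∈ compL A X h) (hab : Rb A (· ∈ X) a b) :
    b ∈ compL A X h ∧ Rb A (· ∈ compL A X h) a b := by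
  induction hab with
  | refl => exact ⟨ha, Rs.refl _⟩
  | @tail b c _ hst ih =>
    have h1 : c ∈ compL A X h := by
      have h2 := ih.1
      rw [mem_compL hA] at h2 ⊢
      exact ⟨h2.1, hst.2.2, h2.2.2.trans (Rs.single hst.1 hst.2.1 hst.2.2)⟩
    exact ⟨h1, ih.2.trans (Rs.single hst.1 ih.1 h1)⟩

theorem comp_conn (hA : ∀ a b, A a b = true → A b a = true) {X : List ℕ} {h a b : ℕ}
    (ha : a ∈ compL A X h) (hb : b ∈ compL A X h) : Rb A (· ∈ compL A X h) a b := by
  have h1 := (mem_compL hA).1 ha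
  have h2 := (mem_compL hA).1 hb
  exact (rb_comp hA ha ((h1.2.2.symm hA).trans h2.2.2)).2

/-- The facts about one step of the recursion, for the right guess. -/
structure Facts (A : ℕ → ℕ → Bool) (C B : List ℕ) (w p : ℕ) (K : ℕ → Prop) : Prop where
  tst : test A C B w p = true
  nwt : ∀ x ∈ wt A C w p, ¬ K x
  kb1 : ∀ x ∈ b1 A C B w p, K x
  nzz : ∀ x ∈ zz A C B w p, ¬ K x
  sol : Sol A (· ∈ nx A C B w p) (· ∈ nb A C B w p) (fun x => K x ∧ x ∈ nx A C B w p)

theorem facts (hA : ∀ a b, A a b = true → A b a = true)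
    {K : ℕ → Prop} (hK : Sol A (· ∈ C) (· ∈ B) K) (hw : K w) (hp : K p) (hwp : A w p = true) :
    Facts A C B w p K := by
  have hpar : ∀ x y z, K x → K y → K z → A x y = true → A x z = true → y = z := by
    intro x y z hx hy hz hxy hxz
    obtain ⟨u, _, _, hun⟩ := hK.mat x hx
    rw [hun y hy hxy, hun z hz hxz]
  have nwt : ∀ x ∈ wt A C w p, ¬ K x := by
    intro x hx hKx
    obtain ⟨_, h2, h3, h4⟩ := mem_wt.1 hx
    rcases h2 with h2 | h2
    · exact h4 (hpar w x p hw hKx hp h2 hwp)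
    · exact h3 (hpar p x w hp hKx hw h2 (hA _ _ hwp))
  have kb1 : ∀ x ∈ b1 A C B w p, K x := by
    intro x hx
    obtain ⟨h1, h2⟩ := mem_b1.1 hx
    have h3 := (mem_nx1.1 h1).1
    rcases h2 with h2 | ⟨y, hy, hyx⟩
    · exact hK.frc x h2 h3
    · rcases hK.cov y x (mem_wt.1 hy).1 h3 hyx with h4 | h4
      · exact absurd h4 (nwt y hy)
      · exact h4
  have nzz : ∀ x ∈ zz A C B w p, ¬ K x := by
    intro x hx hKx
    obtain ⟨_, _, y, hy, y', hy', h1, h2, h3⟩ := mem_zz.1 hx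
    exact h3 (hpar x y y' hKx (kb1 y hy) (kb1 y' hy') h1 h2)
  refine ⟨test_iff.2 ⟨hwp, ?_, ?_, ?_⟩, nwt, kb1, nzz, ?_⟩
  · intro x hx y hy
    rw [← Bool.not_eq_true]
    intro hxy
    rcases hK.cov x y (mem_wt.1 hx).1 (mem_wt.1 hy).1 hxy with h | h
    · exact nwt x hx h
    · exact nwt y hy h
  · intro x hx hxB
    exact nwt x hx (hK.frc x hxB (mem_wt.1 hx).1)
  · intro x hx y hy
    rw [← Bool.not_eq_true]
    intro hxy
    rcases hK.cov x y (mem_nx1.1 (mem_zz.1 hx).1).1 (mem_nx1.1 (mem_zz.1 hy).1).1 hxy with h | h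
    · exact nzz x hx h
    · exact nzz y hy h
  · refine ⟨fun x hx => hx.2, ?_, ?_, ?_⟩
    · intro x hx hx'
      refine ⟨?_, hx'⟩
      obtain ⟨_, h2⟩ := mem_nb.1 hx
      rcases h2 with h2 | ⟨y, hy, hyx⟩
      · exact kb1 x h2
      · rcases hK.cov y x (mem_nx1.1 (mem_zz.1 hy).1).1 (mem_nx1.1 (mem_nx.1 hx').1).1 hyx with
          h4 | h4
        · exact absurd h4 (nzz y hy)
        · exact h4
    · rintro x ⟨hx, hx'⟩
      obtain ⟨h1, h2⟩ := mem_nx.1 hx'
      obtain ⟨h3, h4, h5⟩ := mem_nx1.1 h1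
      obtain ⟨y, hy, hxy, hun⟩ := hK.mat x hx
      have hyw : y ≠ w := by
        rintro rfl
        rw [hA _ _ hxy] at h4
        simp at h4
      have hyp : y ≠ p := by
        rintro rfl
        rw [hA _ _ hxy] at h5
        simp at h5
      have hynx1 : y ∈ nx1 A C w p := by
        refine mem_nx1.2 ⟨hK.sub y hy, ?_, ?_⟩
        · rw [← Bool.not_eq_true]
          exact fun h => nwt y (mem_wt.2 ⟨hK.sub y hy, Or.inl h, hyw, hyp⟩) hy
        · rw [← Bool.not_eq_true]
          exact fun h => nwt y (mem_wt.2 ⟨hK.sub y hy, Or.inr h, hyw, hyp⟩) hy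
      refine ⟨y, ⟨hy, mem_nx.2 ⟨hynx1, fun h => nzz y h hy⟩⟩, hxy, ?_⟩
      rintro z ⟨hz, _⟩ hxz
      exact hun z hz hxz
    · intro x y hx hy hxy
      rcases hK.cov x y (mem_nx1.1 (mem_nx.1 hx).1).1 (mem_nx1.1 (mem_nx.1 hy).1).1 hxy with h | h
      · exact Or.inl ⟨h, hx⟩
      · exact Or.inr ⟨h, hy⟩

/-- Restriction of a solution to a component. -/
theorem Sol.comp (hA : ∀ a b, A a b = true → A b a = true) {X : List ℕ} {K : ℕ → Prop}
    (hK : Sol A (· ∈ X) (· ∈ B) K) (h : ℕ) :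
    Sol A (· ∈ compL A X h) (· ∈ B) (fun x => K x ∧ x ∈ compL A X h) := by
  have hX : ∀ x ∈ compL A X h, x ∈ X := fun x hx => ((mem_compL hA).1 hx).2.1
  refine ⟨fun x hx => hx.2, fun x hx hx' => ⟨hK.frc x hx (hX x hx'), hx'⟩, ?_, ?_⟩
  · rintro x ⟨hx, hx'⟩
    obtain ⟨y, hy, hxy, hun⟩ := hK.mat x hx
    refine ⟨y, ⟨hy, (rb_comp hA hx' (Rs.single hxy (hX x hx') (hK.sub y hy))).1⟩, hxy, ?_⟩
    rintro z ⟨hz, _⟩ hxz
    exact hun z hz hxz
  · intro x y hx hy hxy
    rcases hK.cov x y (hX x hx) (hX y hy) hxy with h | h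
    · exact Or.inl ⟨h, hx⟩
    · exact Or.inr ⟨h, hy⟩

/-- The invariant of the recursion: the history of a component is a chain. -/
structure Hist (A : ℕ → ℕ → Bool) (r : ℕ) (Cs : ℕ → ℕ → Prop) (ws : ℕ → ℕ) (C B : List ℕ)
    (K : ℕ → Prop) : Prop where
  chain : Chain A r Cs ws
  top : ∀ x, Cs r x ↔ x ∈ C
  piv : K (ws r)
  bdr : ∀ q, q + 1 = r → ∀ x y, Cs q x → ¬ Cs r x → Cs r y → A x y = true → y ∈ B

theorem Hist.next (hA : ∀ a b, A a b = true → A b a = true) {r : ℕ} {Cs : ℕ → ℕ → Prop}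
    {ws : ℕ → ℕ} {K : ℕ → Prop} (hH : Hist A r Cs ws C B K)
    (hconn : ∀ a ∈ C, ∀ b ∈ C, Rb A (· ∈ C) a b)
    (hK : Sol A (· ∈ C) (· ∈ B) K) (hp : K p) (hwp : A (ws r) p = true)
    (hF : Facts A C B (ws r) p K) {h : ℕ} (hh : h ∈ headsL A (nx A C B (ws r) p)) :
    ∃ Cs' ws', Hist A (r + 1) Cs' ws' (compL A (nx A C B (ws r) p) h) (nb A C B (ws r) p)
      (fun x => (K x ∧ x ∈ nx A C B (ws r) p) ∧ x ∈ compL A (nx A C B (ws r) p) h) := by
  set w := ws r with hw
  set C' := compL A (nx A C B w p) h with hC'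
  have hsubn : ∀ x ∈ C', x ∈ nx A C B w p := fun x hx => ((mem_compL hA).1 hx).2.1
  have hsub1 : ∀ x ∈ C', x ∈ C ∧ A w x = false ∧ A p x = false := fun x hx =>
    mem_nx1.1 (mem_nx.1 (hsubn x hx)).1
  have hwC : w ∈ C := (hH.top _).1 (hH.chain.mem r le_rfl)
  have hwC' : w ∉ C' := by
    intro h1
    have := (hsub1 w h1).2.2
    rw [hA _ _ hwp] at this
    simp at this
  have hhC' : h ∈ C' := head_mem hA hh
  obtain ⟨w', hw', hpath, u, hu, hu', huw⟩ := first_vertex (T := (· ∈ C'))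
    (hconn w hwC h (hsub1 h hhC').1) hwC' hhC'
  -- boundary fact
  have hbdr : ∀ x y, x ∈ C → x ∉ C' → y ∈ C' → A x y = true → y ∈ nb A C B w p := by
    intro x y hx hx' hy hxy
    have hyn := hsubn y hy
    have hy1 := (mem_nx.1 hyn).1
    by_cases h1 : x ∈ nx A C B w p
    · exact absurd (rb_comp hA hy (Rs.single (hA _ _ hxy) hyn h1)).1 hx'
    by_cases h2 : x ∈ nx1 A C w p
    · have h3 : x ∈ zz A C B w p := by
        by_contra h3
        exact h1 (mem_nx.2 ⟨h2, h3⟩)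
      exact mem_nb.2 ⟨hyn, Or.inr ⟨x, h3, hxy⟩⟩
    have h3 : A w x = true ∨ A p x = true := by
      by_contra h3
      push Not at h3
      exact h2 (mem_nx1.2 ⟨hx, by simpa using h3.1, by simpa using h3.2⟩)
    have h4 : x ≠ w := by
      intro hxw
      have := (hsub1 y hy).2.1
      rw [← hxw] at this
      rw [hxy] at this
      simp at this
    have h5 : x ≠ p := by
      rintro rfl
      have := (hsub1 y hy).2.2
      rw [hxy] at this
      simp at this
    exact mem_nb.2 ⟨hyn, Or.inl (mem_b1.2 ⟨hy1, Or.inr ⟨x, mem_wt.2 ⟨hx, h3, h4, h5⟩, hxy⟩⟩)⟩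
  have hw'nb := hbdr u w' hu hu' hw' huw
  have hw'K := hF.sol.frc w' hw'nb (hsubn w' hw')
  let Cs' : ℕ → ℕ → Prop := fun i x => if i ≤ r then Cs i x else x ∈ C'
  let ws' : ℕ → ℕ := fun i => if i ≤ r then ws i else w'
  have hCs : ∀ i, i ≤ r → ∀ x, (Cs' i x ↔ Cs i x) := by
    intro i hi x
    simp only [Cs', if_pos hi]
  have hCs1 : ∀ x, (Cs' (r + 1) x ↔ x ∈ C') := by
    intro x
    simp only [Cs']
    rw [if_neg (by omega)]
  have hws : ∀ i, i ≤ r → ws' i = ws i := by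
    intro i hi
    simp only [ws', if_pos hi]
  have hws1 : ws' (r + 1) = w' := by
    simp only [ws']
    rw [if_neg (by omega)]
  refine ⟨Cs', ws', ⟨?_, ?_, ?_, ?_, ?_⟩, hCs1, ?_, ?_⟩
  · intro i hi x hx
    by_cases h1 : i < r
    · rw [hCs _ (by omega)] at hx ⊢
      exact hH.chain.anti i h1 x hx
    · have : i = r := by omega
      subst this
      rw [hCs1] at hx
      rw [hCs _ le_rfl, hH.top]
      exact (hsub1 x hx).1
  · intro i hi
    by_cases h1 : i ≤ r
    · rw [hCs _ h1, hws _ h1]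
      exact hH.chain.mem i h1
    · have : i = r + 1 := by omega
      subst this
      rw [hCs1, hws1]
      exact hw'
  · intro i hi
    by_cases h1 : i < r
    · rw [hCs _ (by omega), hws _ (by omega)]
      exact hH.chain.nmem i h1
    · have : i = r := by omega
      subst this
      rw [hCs1, hws _ le_rfl]
      exact hwC'
  · intro i hi
    by_cases h1 : i < r
    · rw [hws _ (by omega), hws _ (by omega)]
      refine (hH.chain.path i h1).mono ?_
      intro x hx
      rw [hCs _ (by omega), hCs _ (by omega)]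
      exact hx
    · have : i = r := by omega
      subst this
      rw [hws _ le_rfl, hws1]
      refine hpath.mono ?_
      intro x hx
      rw [hCs _ le_rfl, hCs1, hH.top]
      exact hx
  · intro i hi x y y' v hx hx' hy hy' hne hxy hxy' hv hvy hvy'
    by_cases h1 : i + 2 ≤ r
    · rw [hCs _ (by omega)] at hx hx' hy hy' hv
      exact hH.chain.key i h1 x y y' v hx hx' hy hy' hne hxy hxy' hv hvy hvy'
    · have h2 : i + 1 = r := by omega
      rw [hCs _ (by omega)] at hx hx' hy hy'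
      have h3 : i + 2 = r + 1 := by omega
      rw [h3, hCs1] at hv
      rw [h2] at hx' hy hy'
      have hyB := hH.bdr i h2 x y hx hx' hy hxy
      have hyB' := hH.bdr i h2 x y' hx hx' hy' hxy'
      have hyC := (hH.top y).1 hy
      have hyC' := (hH.top y').1 hy'
      have hvn := hsubn v hv
      have hv1 := (mem_nx.1 hvn).1
      have hv2 := mem_nx1.1 hv1
      have key : ∀ z, z ∈ B → z ∈ C → A v z = true → z ∈ b1 A C B w p := by
        intro z hzB hzC hvz
        have hzw : z ≠ w := by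
          rintro rfl
          rw [hA _ _ hvz] at hv2
          simp at hv2
        have hzp : z ≠ p := by
          rintro rfl
          rw [hA _ _ hvz] at hv2
          simp at hv2
        have hKz := hK.frc z hzB hzC
        refine mem_b1.2 ⟨mem_nx1.2 ⟨hzC, ?_, ?_⟩, Or.inl hzB⟩
        · rw [← Bool.not_eq_true]
          exact fun h => hF.nwt z (mem_wt.2 ⟨hzC, Or.inl h, hzw, hzp⟩) hKz
        · rw [← Bool.not_eq_true]
          exact fun h => hF.nwt z (mem_wt.2 ⟨hzC, Or.inr h, hzw, hzp⟩) hKz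
      have hb := key y hyB hyC hvy
      have hb' := key y' hyB' hyC' hvy'
      apply (mem_nx.1 hvn).2
      refine mem_zz.2 ⟨hv1, ?_, y, hb, y', hb', hvy, hvy', hne⟩
      intro hvb
      have hKv := hF.kb1 v hvb
      obtain ⟨q, _, _, hun⟩ := hK.mat v hKv
      exact hne ((hun y (hF.kb1 y hb) hvy).trans (hun y' (hF.kb1 y' hb') hvy').symm)
  · rw [hws1]
    exact ⟨hw'K, hw'⟩
  · intro q hq x y hx hx' hy hxy
    have : q = r := by omega
    subst this
    rw [hCs _ le_rfl, hH.top] at hx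
    rw [hCs1] at hx' hy
    exact hbdr x y hx hx' hy hxy

theorem check_complete (hA : ∀ a b, A a b = true → A b a = true) {R : ℕ}
    (hR : ∀ (r : ℕ) (C : ℕ → ℕ → Prop) (w : ℕ → ℕ), Chain A r C w → r < R) :
    ∀ (d r : ℕ) (C B : List ℕ) (K : ℕ → Prop) (Cs : ℕ → ℕ → Prop) (ws : ℕ → ℕ),
      R ≤ r + d + 1 → (∀ a ∈ C, ∀ b ∈ C, Rb A (· ∈ C) a b) → Sol A (· ∈ C) (· ∈ B) K →
      Hist A r Cs ws C B K →
      ∃ w ∈ C, ∃ p ∈ C, test A C B w p = true ∧ solve A d (nx A C B w p, nb A C B w p) = true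
  | 0, r, C, B, K, Cs, ws, hr, hconn, hK, hH => by
    obtain ⟨p, hp, hwp, _⟩ := hK.mat _ hH.piv
    have hF := facts hA hK hH.piv hp hwp
    refine ⟨_, hK.sub _ hH.piv, p, hK.sub _ hp, hF.tst, ?_⟩
    unfold solve
    cases hl : nx A C B (ws r) p with
    | nil => rfl
    | cons v l =>
      exfalso
      obtain ⟨h, hh, _⟩ := exists_head (S := nx A C B (ws r) p) hA (y := v) (by
        rw [hl]; exact List.mem_cons_self)
      obtain ⟨Cs', ws', hH'⟩ := hH.next hA hconn hK hp hwp hF hh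
      have := hR _ _ _ hH'.chain
      omega
  | d + 1, r, C, B, K, Cs, ws, hr, hconn, hK, hH => by
    obtain ⟨p, hp, hwp, _⟩ := hK.mat _ hH.piv
    have hF := facts hA hK hH.piv hp hwp
    refine ⟨_, hK.sub _ hH.piv, p, hK.sub _ hp, hF.tst, ?_⟩
    unfold solve
    simp only [List.all_eq_true, List.any_eq_true, Bool.and_eq_true]
    intro h hh
    obtain ⟨Cs', ws', hH'⟩ := hH.next hA hconn hK hp hwp hF hh
    exact check_complete hA hR d (r + 1) _ _ _ Cs' ws' (by omega)
      (fun a ha b hb => comp_conn hA ha hb) (hF.sol.comp hA h) hH'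

/-- The algorithm: isolated vertices are removed first. -/
def dimB (A : ℕ → ℕ → Bool) (d : ℕ) (V : List ℕ) : Bool :=
  solve A d (V.filter (fun x => V.any (fun y => A x y)), [])

theorem dimB_iff (hA : ∀ a b, A a b = true → A b a = true) (hirr : ∀ a, A a a = false) {R : ℕ}
    (hR : ∀ (r : ℕ) (C : ℕ → ℕ → Prop) (w : ℕ → ℕ), Chain A r C w → r < R) (V : List ℕ) :
    dimB A (R + 1) V = true ↔ ∃ K, Sol A (· ∈ V) (fun _ => False) K := by
  have hmem : ∀ x, x ∈ V.filter (fun x => V.any (fun y => A x y)) ↔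
      x ∈ V ∧ ∃ y ∈ V, A x y = true := by
    intro x
    rw [List.mem_filter, List.any_eq_true]
  constructor
  · intro h
    obtain ⟨K, hK⟩ := solve_sound hA hirr _ _ _ h
    refine ⟨K, fun x hx => ((hmem x).1 (hK.sub x hx)).1, fun _ h => h.elim, hK.mat, ?_⟩
    intro x y hx hy hxy
    exact hK.cov x y ((hmem x).2 ⟨hx, y, hy, hxy⟩) ((hmem y).2 ⟨hy, x, hx, hA _ _ hxy⟩) hxy
  · rintro ⟨K, hK⟩
    have hK' : Sol A (· ∈ V.filter (fun x => V.any (fun y => A x y))) (· ∈ ([] : List ℕ)) K := by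
      refine ⟨?_, fun _ h => absurd h List.not_mem_nil, hK.mat, ?_⟩
      · intro x hx
        obtain ⟨y, hy, hxy, _⟩ := hK.mat x hx
        exact (hmem x).2 ⟨hK.sub x hx, y, hK.sub y hy, hxy⟩
      · intro x y hx hy hxy
        exact hK.cov x y ((hmem x).1 hx).1 ((hmem y).1 hy).1 hxy
    unfold dimB solve
    simp only [List.all_eq_true, List.any_eq_true, Bool.and_eq_true]
    intro h hh
    have hhm := head_mem hA hh
    obtain ⟨hhV, y, hy, hhy⟩ := (hmem h).1 ((mem_compL hA).1 hhm).2.1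
    have hyX : y ∈ V.filter (fun x => V.any (fun y => A x y)) :=
      (hmem y).2 ⟨hy, h, hhV, hA _ _ hhy⟩
    have hyc := (rb_comp hA hhm (Rs.single hhy ((mem_compL hA).1 hhm).2.1 hyX)).1
    have hpiv : ∃ w ∈ compL A (V.filter (fun x => V.any (fun y => A x y))) h, K w := by
      rcases hK'.cov h y ((mem_compL hA).1 hhm).2.1 hyX hhy with h1 | h1
      · exact ⟨h, hhm, h1⟩
      · exact ⟨y, hyc, h1⟩
    obtain ⟨w, hw, hKw⟩ := hpiv
    refine check_complete hA hR R 0 _ _ _ (fun _ x =>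
      x ∈ compL A (V.filter (fun x => V.any (fun y => A x y))) h) (fun _ => w) (by omega)
      (fun a ha b hb => comp_conn hA ha hb) (hK'.comp hA h) ⟨⟨?_, ?_, ?_, ?_, ?_⟩, ?_, ?_, ?_⟩
    · intro i hi; omega
    · intro i _; exact hw
    · intro i hi; omega
    · intro i hi; omega
    · intro i hi; omega
    · intro x; rfl
    · exact ⟨hKw, hw⟩
    · intro q hq; omega

end

end Pool.Agent.H685R2.DIM
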