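import Pool.Agent.H685R2.VST.Base
import Pool.Agent.H685R2.DIM.Ramsey

/-!
# Chains of nested connected pieces in graphs without long induced paths
-/

namespace Pool.Agent.H685R2.DIM

open Relation Pool.Agent.H685R2.VST

/-- Induced paths, as lists. -/
def IndP (A : ℕ → ℕ → Bool) : List ℕ → Prop
  | [] => True
  | [_] => True
  | x :: y :: l => A x y = true ∧ (∀ z ∈ l, A x z = false ∧ x ≠ z) ∧ IndP A (y :: l)

/-- Reachability for Boolean relations. -/
abbrev Rb (A : ℕ → ℕ → Bool) (S : ℕ → Prop) : ℕ → ℕ → Prop := Rs (fun a b => A a b = true) S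

/-- A chain of nested pieces `C 0 ⊇ C 1 ⊇ … ⊇ C r` with pivots. -/
structure Chain (A : ℕ → ℕ → Bool) (r : ℕ) (C : ℕ → ℕ → Prop) (w : ℕ → ℕ) : Prop where
  anti : ∀ i < r, ∀ x, C (i + 1) x → C i x
  mem : ∀ i ≤ r, C i (w i)
  nmem : ∀ i < r, ¬ C (i + 1) (w i)
  path : ∀ i < r, Rb A (fun x => (C i x ∧ ¬ C (i + 1) x) ∨ x = w (i + 1)) (w i) (w (i + 1))
  key : ∀ i, i + 2 ≤ r → ∀ x y y' u, C i x → ¬ C (i + 1) x → C (i + 1) y → C (i + 1) y' → y ≠ y' →
    A x y = true → A x y' = true → C (i + 2) u → A u y = true → A u y' = true → False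

section

variable {A : ℕ → ℕ → Bool}

theorem IndP.tail {x : ℕ} {l : List ℕ} (h : IndP A (x :: l)) : IndP A l := by
  cases l with
  | nil => trivial
  | cons y l => exact h.2.2

theorem exists_suffix (a : ℕ) : ∀ (l : List ℕ), IndP A l → (∃ x ∈ l, A a x = true) → a ∉ l →
    ∃ y l', (y :: l') <:+ l ∧ IndP A (a :: y :: l')
  | [], _, h, _ => by obtain ⟨x, hx, _⟩ := h; exact absurd hx List.not_mem_nil
  | x :: l, hl, h, ha => by
    by_cases hex : ∃ z ∈ l, A a z = true
    · obtain ⟨y, l', h1, h2⟩ := exists_suffix a l hl.tail hex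
        (fun h => ha (List.mem_cons_of_mem _ h))
      exact ⟨y, l', h1.trans (List.suffix_cons _ _), h2⟩
    · obtain ⟨z, hz, hz'⟩ := h
      have hzx : z = x := by
        rcases List.mem_cons.1 hz with h | h
        · exact h
        · exact absurd ⟨z, h, hz'⟩ hex
      subst hzx
      refine ⟨z, l, List.suffix_rfl, hz', ?_, hl⟩
      intro u hu
      refine ⟨?_, fun h => ha (h ▸ List.mem_cons_of_mem _ hu)⟩
      rw [← Bool.not_eq_true]
      exact fun h => hex ⟨u, hu, h⟩

theorem exists_suffix_mem (a : ℕ) : ∀ (l : List ℕ), IndP A l → a ∈ l →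
    ∃ l', (a :: l') <:+ l ∧ IndP A (a :: l')
  | [], _, h => absurd h List.not_mem_nil
  | x :: l, hl, h => by
    by_cases hx : a = x
    · subst hx
      exact ⟨l, List.suffix_rfl, hl⟩
    · obtain ⟨l', h1, h2⟩ := exists_suffix_mem a l hl.tail (by
        rcases List.mem_cons.1 h with h | h
        · exact absurd h hx
        · exact h)
      exact ⟨l', h1.trans (List.suffix_cons _ _), h2⟩

theorem getLast_suffix {l l' : List ℕ} (h : l <:+ l') (hne : l ≠ []) :
    l.getLast? = l'.getLast? := by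
  obtain ⟨t, rfl⟩ := h
  rw [List.getLast?_append]
  cases hl : l.getLast? with
  | none => rw [List.getLast?_eq_none_iff] at hl; exact absurd hl hne
  | some x => rfl

/-- Shortest paths. -/
theorem exists_indP {S : ℕ → Prop} {a b : ℕ} (h : Rb A S a b) (hb : S b) :
    ∃ l : List ℕ, IndP A l ∧ l.head? = some a ∧ l.getLast? = some b ∧ ∀ x ∈ l, S x := by
  induction h using ReflTransGen.head_induction_on with
  | refl => exact ⟨[b], trivial, rfl, rfl, by simpa using hb⟩
  | @head a c hac _ ih =>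
    obtain ⟨l, h1, h2, h3, h4⟩ := ih
    have hcl : c ∈ l := List.mem_of_mem_head? h2
    by_cases ha : a ∈ l
    · obtain ⟨l', h5, h6⟩ := exists_suffix_mem a l h1 ha
      refine ⟨a :: l', h6, rfl, ?_, fun x hx => h4 x (h5.subset hx)⟩
      rw [getLast_suffix h5 (by simp), h3]
    · obtain ⟨y, l', h5, h6⟩ := exists_suffix a l h1 ⟨c, hcl, hac.1⟩ ha
      refine ⟨a :: y :: l', h6, rfl, ?_, ?_⟩
      · rw [List.getLast?_cons_cons, getLast_suffix h5 (by simp), h3]
      · intro x hx
        rcases List.mem_cons.1 hx with rfl | hx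
        · exact hac.2.1
        · exact h4 x (h5.subset hx)

theorem rb_of_indP : ∀ (l : List ℕ) (a b : ℕ), IndP A l → l.head? = some a →
    l.getLast? = some b → Rb A (· ∈ l) a b
  | [], a, b, _, h, _ => by simp at h
  | [x], a, b, _, h, h' => by
    simp at h h'
    subst h
    subst h'
    exact Rs.refl _
  | x :: y :: l, a, b, hl, h, h' => by
    have hxa : x = a := by simpa using h
    subst hxa
    have h1 := rb_of_indP (y :: l) y b hl.2.2 rfl (by rw [← h', List.getLast?_cons_cons])
    exact (Rs.single hl.1 List.mem_cons_self (by simp)).trans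
      (h1.mono fun x hx => List.mem_cons_of_mem _ hx)

variable {r : ℕ} {C : ℕ → ℕ → Prop} {w : ℕ → ℕ}

theorem Chain.anti' (h : Chain A r C w) {i j : ℕ} (hij : i ≤ j) (hj : j ≤ r) {x : ℕ}
    (hx : C j x) : C i x := by
  induction j, hij using Nat.le_induction with
  | base => exact hx
  | succ j hij ih => exact ih (by omega) (h.anti j (by omega) x hx)

theorem Chain.path' (h : Chain A r C w) {i j : ℕ} (hij : i < j) (hj : j ≤ r) :
    Rb A (fun x => (C i x ∧ ¬ C j x) ∨ x = w j) (w i) (w j) := by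
  induction j, hij using Nat.le_induction with
  | base => exact h.path i (by omega)
  | succ j hij ih =>
    have h1 := ih (by omega)
    have h2 := h.path j (by omega)
    refine (h1.mono ?_).trans (h2.mono ?_)
    · rintro x (⟨h3, h4⟩ | rfl)
      · exact Or.inl ⟨h3, fun h5 => h4 (h.anti j (by omega) x h5)⟩
      · exact Or.inl ⟨h.anti' (by omega) (by omega) (h.mem j (by omega)), h.nmem j (by omega)⟩
    · rintro x (⟨h3, h4⟩ | rfl)
      · exact Or.inl ⟨h.anti' (by omega) (by omega) h3, h4⟩
      · exact Or.inr rfl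

/-- The level of a vertex. -/
theorem Chain.level {i j : ℕ} (hij : i ≤ j) {x : ℕ} (hx : C i x) (hx' : ¬ C (j + 1) x) :
    ∃ e, i ≤ e ∧ e ≤ j ∧ C e x ∧ ¬ C (e + 1) x := by
  induction j, hij using Nat.le_induction with
  | base => exact ⟨i, le_refl _, le_refl _, hx, hx'⟩
  | succ j hij ih =>
    by_cases h : C (j + 1) x
    · exact ⟨j + 1, by omega, le_refl _, h, hx'⟩
    · obtain ⟨e, h1, h2, h3, h4⟩ := ih h
      exact ⟨e, h1, by omega, h3, h4⟩

theorem chain_bound_aux (hC : Chain A r C w) (K m : ℕ) (hm : 9 ≤ m) (hKm : K + 1 ≤ m)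
    (P : ℕ → ℕ → List ℕ)
    (hP : ∀ i j, i < j → j ≤ r → IndP A (P i j) ∧ (P i j).head? = some (w i) ∧
      (P i j).getLast? = some (w j) ∧ ∀ x ∈ P i j, (C i x ∧ ¬ C j x) ∨ x = w j)
    (hlen : ∀ l, IndP A l → l.length < K)
    (t : ℕ → ℕ) (ht : ∀ i j, i < j → j < m → t i < t j) (htr : ∀ i < m, t i ≤ r)
    (c : Option (ℕ × ℕ))
    (hc : ∀ i j i' j', i < j → j < i' → i' < j' → j' < m → match c with
      | some (a, b) => ∃ x y, (P (t i) (t j))[a]? = some x ∧ (P (t i') (t j'))[b]? = some y ∧
          A x y = true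
      | none => ∀ x ∈ P (t i) (t j), ∀ y ∈ P (t i') (t j'), A x y = false) : False := by
  have hin : ∀ i j, i < j → j < m → ∀ x ∈ P (t i) (t j), C (t i) x ∧ ∀ q, t j < q → q ≤ r → ¬ C q x := by
    intro i j hij hj x hx
    have h1 := ht i j hij hj
    have h2 := htr j hj
    rcases (hP _ _ h1 h2).2.2.2 x hx with ⟨h3, h4⟩ | rfl
    · refine ⟨h3, fun q hq hq' h5 => h4 (hC.anti' hq.le hq' h5)⟩
    · refine ⟨hC.anti' h1.le h2 (hC.mem _ h2), fun q hq hq' h5 => ?_⟩
      exact hC.nmem (t j) (by omega) (hC.anti' (by omega) hq' h5)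
  cases c with
  | some ab =>
    obtain ⟨a, b⟩ := ab
    simp only at hc
    obtain ⟨x, y, hx, hy, h1⟩ := hc 0 1 5 6 (by omega) (by omega) (by omega) (by omega)
    obtain ⟨x1, y', hx1, hy', h2⟩ := hc 0 1 7 8 (by omega) (by omega) (by omega) (by omega)
    obtain ⟨u, y1, hu, hy1, h3⟩ := hc 3 4 5 6 (by omega) (by omega) (by omega) (by omega)
    obtain ⟨u1, y1', hu1, hy1', h4⟩ := hc 3 4 7 8 (by omega) (by omega) (by omega) (by omega)
    have e1 : x1 = x := by rw [hx] at hx1; exact (Option.some.inj hx1).symm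
    have e2 : y1 = y := by rw [hy] at hy1; exact (Option.some.inj hy1).symm
    have e3 : y1' = y' := by rw [hy'] at hy1'; exact (Option.some.inj hy1').symm
    have e4 : u1 = u := by rw [hu] at hu1; exact (Option.some.inj hu1).symm
    subst e1 e2 e3 e4
    have hx' := List.mem_of_getElem? hx
    have hy'' := List.mem_of_getElem? hy
    have hu' := List.mem_of_getElem? hu
    have hy''' := List.mem_of_getElem? hy'
    have t01 := ht 0 1 (by omega) (by omega)
    have t12 := ht 1 2 (by omega) (by omega)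
    have t23 := ht 2 3 (by omega) (by omega)
    have t35 := ht 3 5 (by omega) (by omega)
    have t56 := ht 5 6 (by omega) (by omega)
    have t67 := ht 6 7 (by omega) (by omega)
    have t78 := ht 7 8 (by omega) (by omega)
    have tr := htr 8 (by omega)
    obtain ⟨hx2, hx3⟩ := hin 0 1 (by omega) (by omega) _ hx'
    obtain ⟨hy2, hy3⟩ := hin 5 6 (by omega) (by omega) _ hy''
    obtain ⟨hy4, _⟩ := hin 7 8 (by omega) (by omega) _ hy'''
    obtain ⟨hu2, _⟩ := hin 3 4 (by omega) (by omega) _ hu'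
    obtain ⟨e, he1, he2, he3, he4⟩ := Chain.level (C := C) (i := t 0) (j := t 1) t01.le hx2
      (hx3 (t 1 + 1) (by omega) (by omega))
    refine hC.key e (by omega) x1 y1 y1' u1 he3 he4 (hC.anti' (by omega) (by omega) hy2)
      (hC.anti' (by omega) (by omega) hy4) ?_ h1 h2 (hC.anti' (by omega) (by omega) hu2) h3 h4
    rintro rfl
    exact hy3 (t 7) (by omega) (by omega) hy4
  | none =>
    simp only at hc
    set U : ℕ → Prop := fun x => ∃ s, s + 1 < m ∧ x ∈ P (t s) (t (s + 1)) with hU
    have hreach : ∀ s, s < m → Rb A U (w (t 0)) (w (t s)) := by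
      intro s
      induction s with
      | zero => intro _; exact Rs.refl _
      | succ s ih =>
        intro hs
        have h1 := ht s (s + 1) (by omega) hs
        obtain ⟨h2, h3, h4, _⟩ := hP _ _ h1 (htr _ hs)
        exact (ih (by omega)).trans ((rb_of_indP _ _ _ h2 h3 h4).mono fun x hx => ⟨s, hs, hx⟩)
    have hlast : U (w (t (m - 1))) := by
      have h1 := ht (m - 2) (m - 1) (by omega) (by omega)
      obtain ⟨_, _, h4, _⟩ := hP _ _ h1 (htr _ (by omega))
      refine ⟨m - 2, by omega, ?_⟩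
      have : m - 2 + 1 = m - 1 := by omega
      rw [this]
      exact List.mem_of_getLast? h4
    obtain ⟨l, h1, h2, h3, h4⟩ := exists_indP (hreach (m - 1) (by omega)) hlast
    have hpos : ∀ (l : List ℕ) (s x : ℕ), IndP A (x :: l) → (∀ z ∈ x :: l, U z) →
        (s + 1 < m ∧ x ∈ P (t s) (t (s + 1))) →
        ∀ z, (x :: l).getLast? = some z → ∃ s', s' ≤ s + l.length ∧ s' + 1 < m ∧
          z ∈ P (t s') (t (s' + 1)) := by
      intro l
      induction l with
      | nil =>
        intro s x _ _ hs z hz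
        have : x = z := by simpa using hz
        subst this
        exact ⟨s, by omega, hs⟩
      | cons y l ih =>
        intro s x hx hUx hs z hz
        have hz' : (y :: l).getLast? = some z := by rw [← hz, List.getLast?_cons_cons]
        obtain ⟨s', hs', hy⟩ := hUx y (by simp)
        have hlt : s' ≤ s + 1 := by
          by_contra hcon
          have := hc s (s + 1) s' (s' + 1) (by omega) (by omega) (by omega) hs' x hs.2 y hy
          rw [hx.1] at this
          simp at this
        obtain ⟨s'', h5, h6⟩ := ih s' y hx.2.2 (fun z hz => hUx z (List.mem_cons_of_mem _ hz))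
          ⟨hs', hy⟩ z hz'
        exact ⟨s'', by rw [List.length_cons]; omega, h6⟩
    cases l with
    | nil => simp at h2
    | cons x l =>
      have hx : x = w (t 0) := by simpa using h2
      have hx0 : x ∈ P (t 0) (t (0 + 1)) := by
        have h5 := ht 0 1 (by omega) (by omega)
        obtain ⟨_, h6, _, _⟩ := hP _ _ h5 (htr _ (by omega))
        rw [hx]
        exact List.mem_of_mem_head? h6
      obtain ⟨s, hs1, hs2, hs3⟩ := hpos l 0 x h1 h4 ⟨by omega, hx0⟩ _ h3
      have h5 := hlen _ h1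
      rw [List.length_cons] at h5
      have h6 := (hin s (s + 1) (by omega) hs2 _ hs3).2
      have h7 := ht (s + 1) (m - 1) (by omega) (by omega)
      exact h6 (t (m - 1)) h7 (htr _ (by omega)) (hC.mem _ (htr _ (by omega)))

end

/-- Chains in graphs without long induced paths are short. -/
theorem chain_bound (k : ℕ) : ∃ R : ℕ, ∀ (A : ℕ → ℕ → Bool),
    (∀ l, IndP A l → 2 ≤ l.length → l.length < k) → ∀ (r : ℕ) (C : ℕ → ℕ → Prop) (w : ℕ → ℕ),
      Chain A r C w → r < R := by
  classical
  obtain ⟨N, hN⟩ := ramsey_gen (Option (Fin (k + 2) × Fin (k + 2))) 4 (k + 11)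
  refine ⟨N, fun A hA r C w hC => ?_⟩
  by_contra hr
  have hlen : ∀ l, IndP A l → l.length < k + 2 := by
    intro l hl
    by_cases h2 : 2 ≤ l.length
    · have := hA l hl h2; omega
    · omega
  have hex : ∀ i j, ∃ l, i < j → j ≤ r → IndP A l ∧ l.head? = some (w i) ∧
      l.getLast? = some (w j) ∧ ∀ x ∈ l, (C i x ∧ ¬ C j x) ∨ x = w j := by
    intro i j
    by_cases h : i < j ∧ j ≤ r
    · obtain ⟨l, h1⟩ := exists_indP (hC.path' h.1 h.2) (Or.inr rfl)
      exact ⟨l, fun _ _ => h1⟩
    · exact ⟨[], fun h1 h2 => absurd ⟨h1, h2⟩ h⟩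
  choose P hP using hex
  let Q : List ℕ → Fin (k + 2) × Fin (k + 2) → Prop := fun l ab =>
    ∃ x y, (P (l.getD 0 0) (l.getD 1 0))[ab.1.val]? = some x ∧
      (P (l.getD 2 0) (l.getD 3 0))[ab.2.val]? = some y ∧ A x y = true
  let col : List ℕ → Option (Fin (k + 2) × Fin (k + 2)) := fun l =>
    if h : ∃ ab, Q l ab then some h.choose else none
  obtain ⟨T, hTS, hTc, c, hc⟩ := hN (Finset.range (r + 1)) col (by
    rw [Finset.card_range]; omega)
  let t : ℕ → ℕ := fun i => if h : i < k + 11 then T.orderEmbOfFin hTc ⟨i, h⟩ else 0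
  have htv : ∀ i, ∀ h : i < k + 11, t i = T.orderEmbOfFin hTc ⟨i, h⟩ := by
    intro i h
    simp only [t, dif_pos h]
  have htT : ∀ i, i < k + 11 → t i ∈ T := by
    intro i h
    rw [htv i h]
    exact T.orderEmbOfFin_mem hTc _
  have ht : ∀ i j, i < j → j < k + 11 → t i < t j := by
    intro i j hij hj
    rw [htv i (by omega), htv j hj]
    exact (T.orderEmbOfFin hTc).strictMono (by rw [Fin.lt_def]; exact hij)
  have htr : ∀ i < k + 11, t i ≤ r := by
    intro i hi
    have := Finset.mem_range.1 (hTS (htT i hi))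
    omega
  have hhom : ∀ i j i' j', i < j → j < i' → i' < j' → j' < k + 11 →
      col [t i, t j, t i', t j'] = c := by
    intro i j i' j' h1 h2 h3 h4
    apply hc _ rfl
    · have a1 := ht i j h1 (by omega)
      have a2 := ht j i' h2 (by omega)
      have a3 := ht i' j' h3 h4
      simp only [List.pairwise_cons, List.mem_cons, List.not_mem_nil, or_false,
          forall_eq_or_imp, forall_eq, List.Pairwise.nil, and_true, IsEmpty.forall_iff,
          implies_true]
      refine ⟨⟨a1, ?_, ?_⟩, ⟨a2, ?_⟩, a3⟩ <;> omega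
    · intro x hx
      simp only [List.mem_cons, List.not_mem_nil, or_false] at hx
      rcases hx with rfl | rfl | rfl | rfl
      · exact htT _ (by omega)
      · exact htT _ (by omega)
      · exact htT _ (by omega)
      · exact htT _ (by omega)
  refine chain_bound_aux hC (k + 2) (k + 11) (by omega) (by omega) P hP hlen t ht htr
    (c.map fun ab => (ab.1.val, ab.2.val)) ?_
  intro i j i' j' h1 h2 h3 h4
  have h5 := hhom i j i' j' h1 h2 h3 h4
  by_cases h : ∃ ab, Q [t i, t j, t i', t j'] ab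
  · have h6 : c = some h.choose := by
      rw [← h5]
      simp only [col, dif_pos h]
    rw [h6]
    exact h.choose_spec
  · have h6 : c = none := by
      rw [← h5]
      simp only [col, dif_neg h]
    rw [h6]
    intro x hx y hy
    rw [← Bool.not_eq_true]
    intro hxy
    obtain ⟨a, ha⟩ := List.mem_iff_getElem?.1 hx
    obtain ⟨b, hb⟩ := List.mem_iff_getElem?.1 hy
    have ha' : a < k + 2 := by
      have := (List.getElem?_eq_some_iff.1 ha).1
      exact this.trans (hlen _ (hP _ _ (ht i j h1 (by omega)) (htr j (by omega))).1)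
    have hb' : b < k + 2 := by
      have := (List.getElem?_eq_some_iff.1 hb).1
      exact this.trans (hlen _ (hP _ _ (ht i' j' h3 h4) (htr j' h4)).1)
    exact h ⟨(⟨a, ha'⟩, ⟨b, hb'⟩), x, y, ha, hb, hxy⟩

end Pool.Agent.H685R2.DIM
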