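import Mathlib

/-!
# Dominating induced matchings: definitions
-/

namespace Pool.Agent.H685R2.DIM

/-- An instance: a list whose length is the number of vertices (so the number of vertices is coded
in unary), and the list of the edges. -/
abbrev Instance : Type := List Unit × List (ℕ × ℕ)

/-- The graph of an instance. Its vertices are `0, 1, …, n - 1`, where `n` is the length of the
first component. -/
def graph (I : Instance) : SimpleGraph (Fin I.1.length) where
  Adj i j := i ≠ j ∧ ((i.val, j.val) ∈ I.2 ∨ (j.val, i.val) ∈ I.2)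
  symm := ⟨fun _ _ h => ⟨h.1.symm, h.2.symm⟩⟩
  loopless := ⟨fun _ h => h.1 rfl⟩

/-- `M` is a dominating induced matching of `G`: a set of edges, pairwise vertex-disjoint and
without edges of `G` between two of them, such that every edge of `G` has at least one endpoint
covered by `M`. -/
def IsDIM {V : Type} (G : SimpleGraph V) (M : Set (Sym2 V)) : Prop :=
  M ⊆ G.edgeSet ∧
  (∀ e ∈ M, ∀ f ∈ M, e ≠ f → ∀ x ∈ e, ∀ y ∈ f, x ≠ y ∧ ¬ G.Adj x y) ∧
  (∀ e ∈ G.edgeSet, ∃ x ∈ e, ∃ f ∈ M, x ∈ f)

/-- `G` has a dominating induced matching. -/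
def HasDIM {V : Type} (G : SimpleGraph V) : Prop := ∃ M : Set (Sym2 V), IsDIM G M

/-- `G` has no induced subgraph isomorphic to `H`. -/
def IndFree {V W : Type} (H : SimpleGraph V) (G : SimpleGraph W) : Prop := IsEmpty (H ↪g G)

/-- The instances whose graph is `P_k`-free and has a dominating induced matching. -/
def DIMPathFree (k : ℕ) (I : Instance) : Prop :=
  IndFree (SimpleGraph.pathGraph k) (graph I) ∧ HasDIM (graph I)

end Pool.Agent.H685R2.DIM
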