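import Pool.Agent.H685R2.DIM.Defs
import Pool.Agent.H685R2.DIM.Alg
import Pool.Agent.H685R2.VST.PolyF
import Pool.Agent.NPC.Classes
import Pool.Agent.NPC.Dec

/-!
# Dominating induced matchings in `P_k`-free graphs: the problem is in P
-/

namespace Pool.Agent.NPC.H685DIM

open Pool.Agent.H685R2.VST (Rs reachL compL headsL tup mem_tup)
open Pool.Agent.H685R2.DIM Relation
open Pool.Agent.NPC.H685VST (poly_reachL poly_compL poly_headsL poly_tup)

/-! ### The adjacency test -/

/-- Adjacency of two vertices of the instance. -/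
def adjB (n : ℕ) (E : List (ℕ × ℕ)) (x y : ℕ) : Bool :=
  decide (x ≠ y) && decide (x < n) && decide (y < n) &&
    (decide ((x, y) ∈ E) || decide ((y, x) ∈ E))

theorem adjB_iff {n : ℕ} {E : List (ℕ × ℕ)} {x y : ℕ} : adjB n E x y = true ↔
    x ≠ y ∧ x < n ∧ y < n ∧ ((x, y) ∈ E ∨ (y, x) ∈ E) := by
  unfold adjB
  simp only [Bool.and_eq_true, Bool.or_eq_true, decide_eq_true_eq]
  tauto

theorem adjB_symm (n : ℕ) (E : List (ℕ × ℕ)) (x y : ℕ) (h : adjB n E x y = true) :
    adjB n E y x = true := by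
  rw [adjB_iff] at h ⊢
  exact ⟨h.1.symm, h.2.2.1, h.2.1, h.2.2.2.symm⟩

theorem adjB_irr (n : ℕ) (E : List (ℕ × ℕ)) (x : ℕ) : adjB n E x x = false := by
  rw [← Bool.not_eq_true, adjB_iff]
  exact fun h => h.1 rfl

theorem graph_adj (I : Instance) (i j : Fin I.1.length) :
    (graph I).Adj i j ↔ adjB I.1.length I.2 i.val j.val = true := by
  rw [adjB_iff]
  change i ≠ j ∧ _ ↔ _
  constructor
  · rintro ⟨h1, h2⟩
    exact ⟨fun h => h1 (Fin.ext h), i.2, j.2, h2⟩
  · rintro ⟨h1, _, _, h2⟩
    exact ⟨fun h => h1 (by rw [h]), h2⟩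

/-! ### Paths -/

/-- Induced paths as lists, by positions. -/
def IPath (A : ℕ → ℕ → Bool) (l : List ℕ) : Prop :=
  ∀ i j, ∀ hi : i < l.length, ∀ hj : j < l.length, i < j →
    (i + 1 = j → A l[i] l[j] = true) ∧ (i + 1 ≠ j → A l[i] l[j] = false ∧ l[i] ≠ l[j])

/-- The test for induced paths on `t` vertices. -/
def pathT (t n : ℕ) (A : ℕ → ℕ → Bool) : Bool :=
  (tup t (List.range n)).all (fun l => !(decide (l.length = t) &&
    l.zipIdx.all (fun p => l.zipIdx.all (fun q => !(decide (p.2 < q.2)) ||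
      (bif decide (p.2 + 1 = q.2) then A p.1 q.1 else (!(A p.1 q.1) && decide (p.1 ≠ q.1)))))))

theorem pathT_iff {t n : ℕ} {A : ℕ → ℕ → Bool} : pathT t n A = true ↔
    ∀ l : List ℕ, l.length = t → (∀ x ∈ l, x < n) → ¬ IPath A l := by
  unfold pathT
  simp only [List.all_eq_true, mem_tup, List.mem_range, Bool.not_eq_true', ← Bool.not_eq_true,
    Bool.and_eq_true, decide_eq_true_eq, Bool.or_eq_true]
  constructor
  · intro h l hl hln hP
    apply h l ⟨hl.le, hln⟩
    refine ⟨hl, ?_⟩
    rintro ⟨a, i⟩ hp ⟨b, j⟩ hq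
    rw [List.mem_zipIdx_iff_getElem?] at hp hq
    obtain ⟨hi, hi'⟩ := List.getElem?_eq_some_iff.1 hp
    obtain ⟨hj, hj'⟩ := List.getElem?_eq_some_iff.1 hq
    simp only at hi hi' hj hj' ⊢
    by_cases hij : i < j
    · right
      obtain ⟨h1, h2⟩ := hP i j hi hj hij
      by_cases hs : i + 1 = j
      · rw [decide_eq_true hs, cond_true, ← hi', ← hj']
        exact h1 hs
      · rw [decide_eq_false hs, cond_false, ← hi', ← hj']
        obtain ⟨h3, h4⟩ := h2 hs
        rw [h3]
        simpa using h4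
    · exact Or.inl hij
  · intro h l hl hcon
    obtain ⟨hlen, hall⟩ := hcon
    apply h l hlen hl.2
    intro i j hi hj hij
    have h1 := hall (l[i], i) (by
      rw [List.mem_zipIdx_iff_getElem?]; exact List.getElem?_eq_getElem hi) (l[j], j) (by
      rw [List.mem_zipIdx_iff_getElem?]; exact List.getElem?_eq_getElem hj)
    rcases h1 with h1 | h1
    · exact absurd hij h1
    · simp only at h1
      constructor
      · intro hs
        rw [decide_eq_true hs, cond_true] at h1
        exact h1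
      · intro hs
        rw [decide_eq_false hs, cond_false] at h1
        simpa using h1

theorem path_iff (t : ℕ) (I : Instance) : IndFree (SimpleGraph.pathGraph t) (graph I) ↔
    ∀ l : List ℕ, l.length = t → (∀ x ∈ l, x < I.1.length) →
      ¬ IPath (adjB I.1.length I.2) l := by
  constructor
  · intro hfree l hl hln hP
    subst hl
    apply hfree.false
    refine ⟨⟨fun i => ⟨l[i.val], hln _ (List.getElem_mem _)⟩, ?_⟩, ?_⟩
    · intro i j hij
      have hij' : l[i.val] = l[j.val] := congrArg Fin.val hij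
      by_contra hne
      have hne' : i.val ≠ j.val := fun h => hne (Fin.ext h)
      have key : ∀ i j, ∀ hi : i < l.length, ∀ hj : j < l.length, i < j → l[i] ≠ l[j] := by
        intro i j hi hj hlt
        obtain ⟨h1, h2⟩ := hP i j hi hj hlt
        by_cases hs : i + 1 = j
        · exact (adjB_iff.1 (h1 hs)).1
        · exact (h2 hs).2
      rcases lt_or_gt_of_ne hne' with h | h
      · exact key _ _ i.2 j.2 h hij'
      · exact key _ _ j.2 i.2 h hij'.symm
    · intro i j
      change (graph I).Adj ⟨l[i.val], _⟩ ⟨l[j.val], _⟩ ↔ _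
      rw [graph_adj, SimpleGraph.pathGraph_adj]
      simp only
      have key : ∀ i j, ∀ hi : i < l.length, ∀ hj : j < l.length, i < j →
          (adjB I.1.length I.2 l[i] l[j] = true ↔ i + 1 = j) := by
        intro i j hi hj hlt
        obtain ⟨h1, h2⟩ := hP i j hi hj hlt
        refine ⟨fun h => ?_, h1⟩
        by_contra hs
        rw [(h2 hs).1] at h
        simp at h
      rcases lt_trichotomy i.val j.val with h | h | h
      · rw [key _ _ i.2 j.2 h]
        constructor
        · exact Or.inl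
        · rintro (h1 | h1)
          · exact h1
          · omega
      · have : i = j := Fin.ext h
        subst this
        rw [adjB_irr]
        simp
      · have h2 : adjB I.1.length I.2 l[i.val] l[j.val] = true ↔
            adjB I.1.length I.2 l[j.val] l[i.val] = true :=
          ⟨adjB_symm _ _ _ _, adjB_symm _ _ _ _⟩
        rw [h2, key _ _ j.2 i.2 h]
        constructor
        · exact Or.inr
        · rintro (h1 | h1)
          · omega
          · exact h1
  · intro h
    refine ⟨fun e => ?_⟩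
    apply h (List.ofFn (fun i : Fin t => (e i).val)) (by simp)
    · intro x hx
      rw [List.mem_ofFn] at hx
      obtain ⟨i, rfl⟩ := hx
      exact (e i).2
    · intro i j hi hj hij
      simp only [List.getElem_ofFn]
      rw [List.length_ofFn] at hi hj
      have hadj : adjB I.1.length I.2 (e ⟨i, hi⟩).val (e ⟨j, hj⟩).val = true ↔
          i + 1 = j := by
        rw [← graph_adj, e.map_adj_iff, SimpleGraph.pathGraph_adj]
        simp only
        omega
      constructor
      · intro hs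
        exact hadj.2 hs
      · intro hs
        refine ⟨?_, ?_⟩
        · rw [← Bool.not_eq_true, hadj]
          exact hs
        · intro h1
          have := e.injective (Fin.ext h1)
          rw [Fin.mk.injEq] at this
          omega

theorem indP_drop {A : ℕ → ℕ → Bool} : ∀ (k : ℕ) {l : List ℕ}, IndP A l → IndP A (l.drop k)
  | 0, _, h => h
  | _ + 1, [], h => h
  | k + 1, _ :: _, h => indP_drop k (IndP.tail h)

theorem indP_iPath {A : ℕ → ℕ → Bool} : ∀ {l : List ℕ}, IndP A l → IPath A l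
  | [], _ => fun i j hi => absurd hi (by simp)
  | [x], _ => fun i j hi hj hij => by simp at hi hj; omega
  | x :: y :: l, h => by
    have ih := indP_iPath (IndP.tail h)
    intro i j hi hj hij
    cases i with
    | zero =>
      cases j with
      | zero => omega
      | succ j =>
        cases j with
        | zero => exact ⟨fun _ => h.1, fun hh => absurd rfl hh⟩
        | succ j =>
          refine ⟨fun hh => by omega, fun _ => ?_⟩
          simp only [List.getElem_cons_zero, List.getElem_cons_succ]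
          exact h.2.1 _ (List.getElem_mem _)
    | succ i =>
      cases j with
      | zero => omega
      | succ j =>
        have h1 := ih i j (by simpa using hi) (by simpa using hj) (by omega)
        simp only [List.getElem_cons_succ]
        exact ⟨fun hh => h1.1 (by omega), fun hh => h1.2 (by omega)⟩

theorem indP_mem_lt {n : ℕ} {E : List (ℕ × ℕ)} : ∀ {l : List ℕ}, IndP (adjB n E) l →
    2 ≤ l.length → ∀ x ∈ l, x < n
  | [], _, h2 => by simp at h2
  | [x], _, h2 => by simp at h2
  | [x, y], h, _ => by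
    intro z hz
    have h1 := adjB_iff.1 h.1
    simp only [List.mem_cons, List.not_mem_nil, or_false] at hz
    rcases hz with rfl | rfl
    · exact h1.2.1
    · exact h1.2.2.1
  | x :: y :: z :: l, h, _ => by
    intro w hw
    rcases List.mem_cons.1 hw with rfl | hw
    · exact (adjB_iff.1 h.1).2.1
    · exact indP_mem_lt (IndP.tail h) (by simp) w hw

theorem indP_lt {t : ℕ} {I : Instance} (h : IndFree (SimpleGraph.pathGraph t) (graph I)) :
    ∀ l, IndP (adjB I.1.length I.2) l → 2 ≤ l.length → l.length < t := by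
  intro l hl h2
  by_contra hlt
  rw [path_iff] at h
  refine h (l.drop (l.length - t)) (by rw [List.length_drop]; omega) ?_ (indP_iPath (indP_drop _ hl))
  intro x hx
  exact indP_mem_lt hl h2 x (List.mem_of_mem_drop hx)

/-! ### Solutions -/

theorem hasDIM_iff (I : Instance) : HasDIM (graph I) ↔
    ∃ K, Sol (adjB I.1.length I.2) (· ∈ List.range I.1.length) (fun _ => False) K := by
  constructor
  · rintro ⟨M, h1, h2, h3⟩
    refine ⟨fun x => ∃ h : x < I.1.length, ∃ e ∈ M, (⟨x, h⟩ : Fin I.1.length) ∈ e, ?_, ?_, ?_, ?_⟩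
    · rintro x ⟨h, _⟩
      exact List.mem_range.2 h
    · intro x h; exact h.elim
    · rintro x ⟨hx, e, he, hxe⟩
      obtain ⟨y, rfl⟩ := Sym2.mem_iff_exists.1 hxe
      have hadj : (graph I).Adj ⟨x, hx⟩ y := by
        rw [← SimpleGraph.mem_edgeSet]; exact h1 he
      refine ⟨y.val, ⟨y.2, _, he, Sym2.mem_mk_right _ _⟩, (graph_adj I _ _).1 hadj, ?_⟩
      rintro z ⟨hz, f, hf, hzf⟩ hxz
      have hxz' : (graph I).Adj ⟨x, hx⟩ ⟨z, hz⟩ := (graph_adj I _ _).2 hxz
      by_cases hef : s(⟨x, hx⟩, y) = f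
      · rw [← hef, Sym2.mem_iff] at hzf
        rcases hzf with h | h
        · rw [h] at hxz'
          exact absurd hxz' ((graph I).irrefl)
        · rw [← h]
      · exact absurd hxz' (h2 _ he f hf hef _ hxe _ hzf).2
    · intro x y hx hy hxy
      have hx' := List.mem_range.1 hx
      have hy' := List.mem_range.1 hy
      have hadj : (graph I).Adj ⟨x, hx'⟩ ⟨y, hy'⟩ := (graph_adj I _ _).2 hxy
      obtain ⟨z, hz, f, hf, hzf⟩ := h3 s(⟨x, hx'⟩, ⟨y, hy'⟩) (by
        rw [SimpleGraph.mem_edgeSet]; exact hadj)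
      rcases Sym2.mem_iff.1 hz with rfl | rfl
      · exact Or.inl ⟨hx', f, hf, hzf⟩
      · exact Or.inr ⟨hy', f, hf, hzf⟩
  · rintro ⟨K, hK⟩
    have hpar : ∀ x y z, K x → K y → K z → adjB I.1.length I.2 x y = true →
        adjB I.1.length I.2 x z = true → y = z := by
      intro x y z hx hy hz hxy hxz
      obtain ⟨u, _, _, hun⟩ := hK.mat x hx
      rw [hun y hy hxy, hun z hz hxz]
    refine ⟨{e | e ∈ (graph I).edgeSet ∧ ∀ x ∈ e, K x.val}, fun e he => he.1, ?_, ?_⟩
    · rintro e ⟨he, he'⟩ f ⟨hf, hf'⟩ hef x hx y hy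
      obtain ⟨x', rfl⟩ := Sym2.mem_iff_exists.1 hx
      obtain ⟨y', rfl⟩ := Sym2.mem_iff_exists.1 hy
      have hxx' : (graph I).Adj x x' := by rw [← SimpleGraph.mem_edgeSet]; exact he
      have hyy' : (graph I).Adj y y' := by rw [← SimpleGraph.mem_edgeSet]; exact hf
      have k1 := he' x (Sym2.mem_mk_left _ _)
      have k2 := he' x' (Sym2.mem_mk_right _ _)
      have k3 := hf' y (Sym2.mem_mk_left _ _)
      have k4 := hf' y' (Sym2.mem_mk_right _ _)
      constructor
      · rintro rfl
        have := hpar x.val x'.val y'.val k1 k2 k4 ((graph_adj I _ _).1 hxx')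
          ((graph_adj I _ _).1 hyy')
        exact hef (by rw [Fin.ext this])
      · intro hxy
        have h5 := hpar x.val x'.val y.val k1 k2 k3 ((graph_adj I _ _).1 hxx')
          ((graph_adj I _ _).1 hxy)
        have h6 := hpar y.val y'.val x.val k3 k4 k1 ((graph_adj I _ _).1 hyy')
          ((graph_adj I _ _).1 hxy.symm)
        exact hef (by rw [Fin.ext h5, Fin.ext h6, Sym2.eq_swap])
    · intro e he
      induction e using Sym2.ind with
      | h x y =>
        have hxy : (graph I).Adj x y := by rw [← SimpleGraph.mem_edgeSet]; exact he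
        have key : ∀ x : Fin I.1.length, K x.val →
            ∃ f ∈ {e | e ∈ (graph I).edgeSet ∧ ∀ x ∈ e, K x.val}, x ∈ f := by
          intro x hx
          obtain ⟨z, hz, hxz, _⟩ := hK.mat x.val hx
          have hzn := List.mem_range.1 (hK.sub z hz)
          refine ⟨s(x, ⟨z, hzn⟩), ⟨?_, ?_⟩, Sym2.mem_mk_left _ _⟩
          · rw [SimpleGraph.mem_edgeSet, graph_adj]
            exact hxz
          · intro u hu
            rcases Sym2.mem_iff.1 hu with rfl | rfl
            · exact hx
            · exact hz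
        rcases hK.cov x.val y.val (List.mem_range.2 x.2) (List.mem_range.2 y.2)
          ((graph_adj I _ _).1 hxy) with h | h
        · obtain ⟨f, hf, hxf⟩ := key x h
          exact ⟨x, Sym2.mem_mk_left _ _, f, hf, hxf⟩
        · obtain ⟨f, hf, hxf⟩ := key y h
          exact ⟨y, Sym2.mem_mk_right _ _, f, hf, hxf⟩

/-! ### The decision procedure -/

/-- The decision procedure, with recursion depth `R`. -/
def decI (k R : ℕ) (I : Instance) : Bool :=
  pathT k I.1.length (adjB I.1.length I.2) &&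
    dimB (adjB I.1.length I.2) (R + 1) (List.range I.1.length)

theorem decI_iff {k R : ℕ} (hR : ∀ (A : ℕ → ℕ → Bool),
    (∀ l, IndP A l → 2 ≤ l.length → l.length < k) → ∀ (r : ℕ) (C : ℕ → ℕ → Prop) (w : ℕ → ℕ),
      Chain A r C w → r < R) (I : Instance) : decI k R I = true ↔ DIMPathFree k I := by
  unfold decI DIMPathFree
  rw [Bool.and_eq_true, pathT_iff, ← path_iff]
  constructor
  · rintro ⟨h1, h2⟩
    refine ⟨h1, (hasDIM_iff I).2 ?_⟩
    exact (dimB_iff (adjB_symm _ _) (adjB_irr _ _) (hR _ (indP_lt h1)) _).1 h2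
  · rintro ⟨h1, h2⟩
    refine ⟨h1, ?_⟩
    exact (dimB_iff (adjB_symm _ _) (adjB_irr _ _) (hR _ (indP_lt h1)) _).2 ((hasDIM_iff I).1 h2)

/-! ### Polynomial time -/

attribute [local irreducible] reachL compL headsL tup

variable {α : Type} [TEnc α]

theorem poly_nx1 {A : α → ℕ → ℕ → Bool} {C : α → List ℕ} {w p : α → ℕ}
    (hA : Poly (fun p : α × ℕ × ℕ => A p.1 p.2.1 p.2.2)) (hC : Poly C) (hw : Poly w)
    (hp : Poly p) : Poly (fun a => nx1 (A a) (C a) (w a) (p a)) := by
  unfold nx1
  fun_prop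

attribute [fun_prop] poly_nx1
attribute [local irreducible] nx1

theorem poly_wt {A : α → ℕ → ℕ → Bool} {C : α → List ℕ} {w p : α → ℕ}
    (hA : Poly (fun p : α × ℕ × ℕ => A p.1 p.2.1 p.2.2)) (hC : Poly C) (hw : Poly w)
    (hp : Poly p) : Poly (fun a => wt (A a) (C a) (w a) (p a)) := by
  unfold wt
  fun_prop

attribute [fun_prop] poly_wt
attribute [local irreducible] wt

theorem poly_b1 {A : α → ℕ → ℕ → Bool} {C B : α → List ℕ} {w p : α → ℕ}
    (hA : Poly (fun p : α × ℕ × ℕ => A p.1 p.2.1 p.2.2)) (hC : Poly C) (hB : Poly B) (hw : Poly w)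
    (hp : Poly p) : Poly (fun a => b1 (A a) (C a) (B a) (w a) (p a)) := by
  unfold b1
  fun_prop

attribute [fun_prop] poly_b1
attribute [local irreducible] b1

theorem poly_zz {A : α → ℕ → ℕ → Bool} {C B : α → List ℕ} {w p : α → ℕ}
    (hA : Poly (fun p : α × ℕ × ℕ => A p.1 p.2.1 p.2.2)) (hC : Poly C) (hB : Poly B) (hw : Poly w)
    (hp : Poly p) : Poly (fun a => zz (A a) (C a) (B a) (w a) (p a)) := by
  unfold zz
  fun_prop

attribute [fun_prop] poly_zz
attribute [local irreducible] zz

theorem poly_nx {A : α → ℕ → ℕ → Bool} {C B : α → List ℕ} {w p : α → ℕ}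
    (hA : Poly (fun p : α × ℕ × ℕ => A p.1 p.2.1 p.2.2)) (hC : Poly C) (hB : Poly B) (hw : Poly w)
    (hp : Poly p) : Poly (fun a => nx (A a) (C a) (B a) (w a) (p a)) := by
  unfold nx
  fun_prop

attribute [fun_prop] poly_nx
attribute [local irreducible] nx

theorem poly_nb {A : α → ℕ → ℕ → Bool} {C B : α → List ℕ} {w p : α → ℕ}
    (hA : Poly (fun p : α × ℕ × ℕ => A p.1 p.2.1 p.2.2)) (hC : Poly C) (hB : Poly B) (hw : Poly w)
    (hp : Poly p) : Poly (fun a => nb (A a) (C a) (B a) (w a) (p a)) := by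
  unfold nb
  fun_prop

attribute [fun_prop] poly_nb
attribute [local irreducible] nb

theorem poly_indepL {A : α → ℕ → ℕ → Bool} {L : α → List ℕ}
    (hA : Poly (fun p : α × ℕ × ℕ => A p.1 p.2.1 p.2.2)) (hL : Poly L) :
    Poly (fun a => indepL (A a) (L a)) := by
  unfold indepL
  fun_prop

attribute [fun_prop] poly_indepL
attribute [local irreducible] indepL

theorem poly_test {A : α → ℕ → ℕ → Bool} {C B : α → List ℕ} {w p : α → ℕ}
    (hA : Poly (fun p : α × ℕ × ℕ => A p.1 p.2.1 p.2.2)) (hC : Poly C) (hB : Poly B) (hw : Poly w)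
    (hp : Poly p) : Poly (fun a => test (A a) (C a) (B a) (w a) (p a)) := by
  unfold test
  fun_prop

attribute [fun_prop] poly_test
attribute [local irreducible] test

theorem poly_solve {A : α → ℕ → ℕ → Bool}
    (hA : Poly (fun p : α × ℕ × ℕ => A p.1 p.2.1 p.2.2)) :
    ∀ d, Poly (fun p : α × List ℕ × List ℕ => solve (A p.1) d p.2)
  | 0 => by
    unfold solve
    fun_prop
  | d + 1 => by
    have ih := poly_solve hA d
    unfold solve
    have hA1 : Poly (fun p : (α × List ℕ × List ℕ) × ℕ × ℕ => A p.1.1 p.2.1 p.2.2) := by fun_prop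
    have hh : Poly (fun p : α × List ℕ × List ℕ => headsL (A p.1) p.2.1) := by
      refine poly_headsL (R := fun p : α × List ℕ × List ℕ => A p.1) hA1 (by fun_prop)
    have hc : Poly (fun p : (α × List ℕ × List ℕ) × ℕ => compL (A p.1.1) p.1.2.1 p.2) := by
      refine poly_compL (R := fun p : (α × List ℕ × List ℕ) × ℕ => A p.1.1) ?_ (by fun_prop)
        (by fun_prop)
      exact hA.comp (f := fun p : ((α × List ℕ × List ℕ) × ℕ) × ℕ × ℕ =>
        (p.1.1.1, p.2.1, p.2.2)) (by fun_prop)
    refine Poly.all (p := fun s h => (compL (A s.1) s.2.1 h).any (fun w =>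
      (compL (A s.1) s.2.1 h).any (fun p => test (A s.1) (compL (A s.1) s.2.1 h) s.2.2 w p &&
        solve (A s.1) d (nx (A s.1) (compL (A s.1) s.2.1 h) s.2.2 w p,
          nb (A s.1) (compL (A s.1) s.2.1 h) s.2.2 w p)))) hh ?_
    refine Poly.any (l := fun q : (α × List ℕ × List ℕ) × ℕ => compL (A q.1.1) q.1.2.1 q.2)
      (p := fun q w => (compL (A q.1.1) q.1.2.1 q.2).any (fun p =>
        test (A q.1.1) (compL (A q.1.1) q.1.2.1 q.2) q.1.2.2 w p &&
        solve (A q.1.1) d (nx (A q.1.1) (compL (A q.1.1) q.1.2.1 q.2) q.1.2.2 w p,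
          nb (A q.1.1) (compL (A q.1.1) q.1.2.1 q.2) q.1.2.2 w p))) hc ?_
    refine Poly.any (l := fun q : ((α × List ℕ × List ℕ) × ℕ) × ℕ =>
        compL (A q.1.1.1) q.1.1.2.1 q.1.2)
      (p := fun q p => test (A q.1.1.1) (compL (A q.1.1.1) q.1.1.2.1 q.1.2) q.1.1.2.2 q.2 p &&
        solve (A q.1.1.1) d (nx (A q.1.1.1) (compL (A q.1.1.1) q.1.1.2.1 q.1.2) q.1.1.2.2 q.2 p,
          nb (A q.1.1.1) (compL (A q.1.1.1) q.1.1.2.1 q.1.2) q.1.1.2.2 q.2 p))
      (hc.comp (f := fun q : ((α × List ℕ × List ℕ) × ℕ) × ℕ => q.1) (by fun_prop)) ?_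
    have hA4 : Poly (fun p : ((((α × List ℕ × List ℕ) × ℕ) × ℕ) × ℕ) × ℕ × ℕ =>
        A p.1.1.1.1.1 p.2.1 p.2.2) :=
      hA.comp (f := fun p : ((((α × List ℕ × List ℕ) × ℕ) × ℕ) × ℕ) × ℕ × ℕ =>
        (p.1.1.1.1.1, p.2.1, p.2.2)) (by fun_prop)
    have hc4 : Poly (fun q : (((α × List ℕ × List ℕ) × ℕ) × ℕ) × ℕ =>
        compL (A q.1.1.1.1) q.1.1.1.2.1 q.1.1.2) :=
      hc.comp (f := fun q : (((α × List ℕ × List ℕ) × ℕ) × ℕ) × ℕ => q.1.1) (by fun_prop)
    have hB4 : Poly (fun q : (((α × List ℕ × List ℕ) × ℕ) × ℕ) × ℕ => q.1.1.1.2.2) := by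
      fun_prop
    have hw4 : Poly (fun q : (((α × List ℕ × List ℕ) × ℕ) × ℕ) × ℕ => q.1.2) := by fun_prop
    have hp4 : Poly (fun q : (((α × List ℕ × List ℕ) × ℕ) × ℕ) × ℕ => q.2) := by fun_prop
    refine Poly.and ?_ ?_
    · exact poly_test (A := fun q : (((α × List ℕ × List ℕ) × ℕ) × ℕ) × ℕ => A q.1.1.1.1)
        hA4 hc4 hB4 hw4 hp4
    · refine ih.comp (f := fun q : (((α × List ℕ × List ℕ) × ℕ) × ℕ) × ℕ =>
        ((q.1.1.1.1, nx (A q.1.1.1.1) (compL (A q.1.1.1.1) q.1.1.1.2.1 q.1.1.2) q.1.1.1.2.2 q.1.2 q.2,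
          nb (A q.1.1.1.1) (compL (A q.1.1.1.1) q.1.1.1.2.1 q.1.1.2) q.1.1.1.2.2 q.1.2 q.2) :
            α × List ℕ × List ℕ)) ?_
      refine Poly.pair (by fun_prop) (Poly.pair ?_ ?_)
      · exact poly_nx (A := fun q : (((α × List ℕ × List ℕ) × ℕ) × ℕ) × ℕ => A q.1.1.1.1)
          hA4 hc4 hB4 hw4 hp4
      · exact poly_nb (A := fun q : (((α × List ℕ × List ℕ) × ℕ) × ℕ) × ℕ => A q.1.1.1.1)
          hA4 hc4 hB4 hw4 hp4

theorem poly_adj : Poly (fun p : Instance × ℕ × ℕ =>
    adjB p.1.1.length p.1.2 p.2.1 p.2.2) := by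
  unfold adjB
  fun_prop

theorem poly_pathT {n : α → List Unit} {A : α → ℕ → ℕ → Bool} (t : ℕ) (hn : Poly n)
    (hA : Poly (fun p : α × ℕ × ℕ => A p.1 p.2.1 p.2.2)) :
    Poly (fun a => pathT t (n a).length (A a)) := by
  unfold pathT
  refine Poly.all (p := fun a l => !(decide (l.length = t) &&
    l.zipIdx.all (fun p => l.zipIdx.all (fun q => !(decide (p.2 < q.2)) ||
      (bif decide (p.2 + 1 = q.2) then A a p.1 q.1 else (!(A a p.1 q.1) && decide (p.1 ≠ q.1)))))))
    (poly_tup (UPoly.length hn).range t) ?_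
  fun_prop

attribute [local irreducible] solve

theorem poly_decI (k R : ℕ) : Poly (fun I : Instance => decI k R I) := by
  unfold decI dimB
  have hA : Poly (fun p : Instance × ℕ × ℕ => adjB p.1.1.length p.1.2 p.2.1 p.2.2) := poly_adj
  have hn : Poly (fun I : Instance => I.1) := Poly.fst Poly.id
  have hr : Poly (fun I : Instance => List.range I.1.length) := (UPoly.length hn).range
  refine Poly.and (poly_pathT (A := fun I : Instance => adjB I.1.length I.2) k hn hA) ?_
  refine (poly_solve (A := fun I : Instance => adjB I.1.length I.2) hA (R + 1)).comp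
    (f := fun I : Instance => ((I, (List.range I.1.length).filter (fun x =>
      (List.range I.1.length).any (fun y => adjB I.1.length I.2 x y)), []) :
        Instance × List ℕ × List ℕ)) ?_
  refine Poly.pair Poly.id (Poly.pair ?_ (Poly.const []))
  refine Poly.filter (p := fun (I : Instance) x => (List.range I.1.length).any (fun y =>
    adjB I.1.length I.2 x y)) hr ?_
  refine Poly.any (l := fun q : Instance × ℕ => List.range q.1.1.length)
    (p := fun q y => adjB q.1.1.length q.1.2 q.2 y) (hr.comp (Poly.fst Poly.id)) ?_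
  exact hA.comp (f := fun q : (Instance × ℕ) × ℕ => (q.1.1, q.1.2, q.2)) (by fun_prop)

/-- **Main theorem.** -/
theorem dim_inPP (k : ℕ) : InPP (DIMPathFree k) := by
  obtain ⟨R, hR⟩ := chain_bound k
  exact inPP_of (poly_decI k R) fun I => (decI_iff hR I).symm

end Pool.Agent.NPC.H685DIM
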